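import Pool.Agent.H76.TH.OmL

/-!
There is a thin semidecidable set of reals whose semidecision time is `ω₁` if and only if
`ω₁ᴸ = ω₁`, if and only if uncountably many reals are constructible.
-/

set_option autoImplicit false

open Ordinal Set

namespace Pool.Agent.Results.MP_bf34a8_lc.ThinConstructible

open Pool.Agent.H76.ITTM Pool.Agent.H76.TH Pool.Agent.H75.EK

/-- A thin semidecidable set has at most `ℵ₁` elements. -/
lemma mk_le_aleph_one {A : Set (ℕ → Bool)} (hA : Thin A) (hs : Semidecidable A) :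
    Cardinal.mk A ≤ Cardinal.aleph 1 := by
  obtain ⟨p, hp⟩ := hs
  have h1 : A = ⋃ α : Set.Iio (ω₁ : Ordinal.{0}), {x | HaltsBy p x α.1} := by
    ext x
    simp only [Set.mem_iUnion]
    constructor
    · intro hx
      have h := (hp x).2 hx
      exact ⟨⟨haltingTime p x, haltingTime_lt h⟩, haltsBy_haltingTime h⟩
    · rintro ⟨α, hα⟩
      exact (hp x).1 ⟨α.1, hα⟩
  have h2 : ∀ α : Set.Iio (ω₁ : Ordinal.{0}),
      Cardinal.mk {x | HaltsBy p x α.1} ≤ Cardinal.aleph0 := fun α =>
    Cardinal.le_aleph0_iff_set_countable.2 (countable_haltsBy hA hp α.2)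
  have h3 : Cardinal.lift.{1} (Cardinal.mk A) ≤
      Cardinal.lift.{0} (Cardinal.mk (Set.Iio (ω₁ : Ordinal.{0}))) *
        ⨆ α : Set.Iio (ω₁ : Ordinal.{0}), Cardinal.lift.{1} (Cardinal.mk {x | HaltsBy p x α.1}) := by
    conv_lhs => rw [h1]
    exact Cardinal.mk_iUnion_le_lift _
  have h4 : (⨆ α : Set.Iio (ω₁ : Ordinal.{0}),
      Cardinal.lift.{1} (Cardinal.mk {x | HaltsBy p x α.1})) ≤ Cardinal.aleph0 := by
    refine ciSup_le' fun α => ?_
    rw [Cardinal.lift_le_aleph0]
    exact h2 α
  have h5 : Cardinal.mk (Set.Iio (ω₁ : Ordinal.{0})) = Cardinal.aleph 1 := by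
    rw [Cardinal.mk_Iio_ordinal, Ordinal.card_omega, Cardinal.lift_aleph]
    simp
  rw [h5, Cardinal.lift_uzero] at h3
  have h6 := h3.trans (mul_le_mul_right h4 _)
  have h7 : (Cardinal.aleph 1 : Cardinal.{1}) * Cardinal.aleph0 = Cardinal.aleph 1 :=
    Cardinal.mul_aleph0_eq (Cardinal.aleph0_le_aleph 1)
  rw [h7] at h6
  have h8 : (Cardinal.aleph 1 : Cardinal.{1}) =
      Cardinal.lift.{1, 0} (Cardinal.aleph 1 : Cardinal.{0}) := by
    rw [Cardinal.lift_aleph]
    simp
  rw [h8] at h6
  exact Cardinal.lift_le.1 h6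

/-- Main theorem. The question has a positive answer if and only if every countable ordinal is
countable in `L` (that is, `ω₁ᴸ = ω₁`), if and only if uncountably many reals are constructible.
Moreover every thin semidecidable set has at most `ℵ₁` elements, all of them constructible, and
its semidecision time is `ω₁` if and only if it is uncountable. -/
theorem result :
    ((∃ A : Set (ℕ → Bool), Thin A ∧ Semidecidable A ∧ semidecisionTime A = ω₁) ↔
      ∀ α : Ordinal.{0}, α < ω₁ → CountableInL α) ∧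
    ((∃ A : Set (ℕ → Bool), Thin A ∧ Semidecidable A ∧ semidecisionTime A = ω₁) ↔
      ¬ {x : ℕ → Bool | Constr x}.Countable) ∧
    ∀ A : Set (ℕ → Bool), Thin A → Semidecidable A →
      Cardinal.mk A ≤ Cardinal.aleph 1 ∧ (∀ x ∈ A, Constr x) ∧
      (semidecisionTime A = ω₁ ↔ ¬ A.Countable) ∧
      (semidecisionTime A < ω₁ ↔ A.Countable) := by
  have key : (∃ A : Set (ℕ → Bool), Thin A ∧ Semidecidable A ∧ semidecisionTime A = ω₁) ↔
      ¬ {x : ℕ → Bool | Constr x}.Countable := by
    constructor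
    · rintro ⟨A, hA, hs, h⟩
      exact uncountable_constr hA hs ((semidecisionTime_eq_iff hA hs).1 h)
    · intro h
      obtain ⟨A, hA, hs, hu⟩ := exists_thin h
      exact ⟨A, hA, hs, (semidecisionTime_eq_iff hA hs).2 hu⟩
  refine ⟨key.trans uncountable_iff, key, fun A hA hs => ⟨mk_le_aleph_one hA hs,
    constr_of_semidecidable hA hs, semidecisionTime_eq_iff hA hs, semidecisionTime_lt_iff hA hs⟩⟩

end Pool.Agent.Results.MP_bf34a8_lc.ThinConstructible
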